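import Mathlib
import Pool.Agent.R155.HarmE

/-!
# Harmonic alternating paths and matchings: an upper bound for every `n`

An explicit configuration, for every `n ≥ 1`, with no harmonic alternating path longer than
`(2n+4)/3` and no harmonic alternating matching with more than `(n+1)/2` edges.
-/

namespace Pool.Agent.Results.MP_70146a_co.UpperAllN

open Finset Pool.Agent.R155.Harm

/-- Twice the signed area of the triangle `pqr`. -/
def orient (p q r : ℝ × ℝ) : ℝ := (q.1 - p.1) * (r.2 - p.2) - (q.2 - p.2) * (r.1 - p.1)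

/-- `IsConfig n v lab`: the points `v 0, …, v (2n-1)` are in convex position, listed in their
(clockwise or anticlockwise) order on the boundary of the convex hull; the red points are
`v 0, …, v (n-1)` and the blue points are `v n, …, v (2n-1)`; a line strictly separates red from
blue; `lab` is the labelling: the red points carry the labels `0, …, n-1` in the order in which
they occur on the boundary of the hull, and the blue labels are a permutation of `{0, …, n-1}`. -/
structure IsConfig (n : ℕ) (v : ℕ → ℝ × ℝ) (lab : ℕ → ℕ) : Prop where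
  convex : (∀ a b c, a < b → b < c → c < 2 * n → 0 < orient (v a) (v b) (v c)) ∨
    (∀ a b c, a < b → b < c → c < 2 * n → orient (v a) (v b) (v c) < 0)
  inj : ∀ a < 2 * n, ∀ b < 2 * n, v a = v b → a = b
  sep : ∃ x y z : ℝ, (∀ a < n, x * (v a).1 + y * (v a).2 < z) ∧
    (∀ b, n ≤ b → b < 2 * n → z < x * (v b).1 + y * (v b).2)
  red : ∀ a < n, lab a = a
  blue : Set.BijOn lab {b | n ≤ b ∧ b < 2 * n} {c | c < n}

/-- The `ℓ` edges `v (p k) v (q k)`, `k < ℓ`, form a harmonic alternating plane geometric graph: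
each edge joins a red point to a blue point, two edges share no point besides a common endpoint,
and the weights are pairwise distinct. -/
structure PlaneHarmonic (n : ℕ) (v : ℕ → ℝ × ℝ) (lab : ℕ → ℕ) (ℓ : ℕ) (p q : ℕ → ℕ) : Prop where
  vertex : ∀ k < ℓ, p k < 2 * n ∧ q k < 2 * n
  alternating : ∀ k < ℓ, (p k < n ↔ n ≤ q k)
  plane : ∀ k < ℓ, ∀ l < ℓ, k ≠ l →
    ∀ x ∈ segment ℝ (v (p k)) (v (q k)), x ∈ segment ℝ (v (p l)) (v (q l)) →
      (x = v (p k) ∨ x = v (q k)) ∧ (x = v (p l) ∨ x = v (q l))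
  harmonic : ∀ k < ℓ, ∀ l < ℓ, lab (p k) + lab (q k) = lab (p l) + lab (q l) → k = l

/-- `v (u 0), …, v (u ℓ)` is a (simple) harmonic alternating path with `ℓ` edges. -/
structure HarmonicPath (n : ℕ) (v : ℕ → ℝ × ℝ) (lab : ℕ → ℕ) (ℓ : ℕ) (u : ℕ → ℕ) : Prop where
  vertex : ∀ i ≤ ℓ, u i < 2 * n
  simple : ∀ i ≤ ℓ, ∀ j ≤ ℓ, u i = u j → i = j
  graph : PlaneHarmonic n v lab ℓ u (fun k => u (k + 1))

/-- The edges `v (p k) v (q k)`, `k < ℓ`, form a harmonic alternating matching with `ℓ` edges. -/
structure HarmonicMatching (n : ℕ) (v : ℕ → ℝ × ℝ) (lab : ℕ → ℕ) (ℓ : ℕ) (p q : ℕ → ℕ) :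
    Prop where
  graph : PlaneHarmonic n v lab ℓ p q
  disjoint : ∀ k < ℓ, ∀ l < ℓ, k ≠ l → p k ≠ p l ∧ p k ≠ q l ∧ q k ≠ p l ∧ q k ≠ q l

/-! ### Geometry: crossing edges on the parabola -/

/-- Points on the parabola. -/
def par (a : ℕ) : ℝ × ℝ := ((a : ℝ), (a : ℝ) ^ 2)

lemma par_orient (a b c : ℕ) (hab : a < b) (hbc : b < c) : 0 < orient (par a) (par b) (par c) := by
  have h1 : (a : ℝ) < b := by exact_mod_cast hab
  have h2 : (b : ℝ) < c := by exact_mod_cast hbc
  have : orient (par a) (par b) (par c) = ((b : ℝ) - a) * ((c : ℝ) - a) * ((c : ℝ) - b) := by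
    simp only [orient, par]; ring
  rw [this]
  have e1 : 0 < (b : ℝ) - a := by linarith
  have e2 : 0 < (c : ℝ) - a := by linarith
  have e3 : 0 < (c : ℝ) - b := by linarith
  positivity

lemma par_inj (a b : ℕ) (h : par a = par b) : a = b := by
  have := congrArg Prod.fst h
  simp only [par] at this
  exact_mod_cast this

lemma cross_real (A B C D : ℝ) (h1 : A < B) (h2 : B < C) (h3 : C < D) :
    ∃ x : ℝ × ℝ, x ∈ segment ℝ ((A, A ^ 2) : ℝ × ℝ) (C, C ^ 2) ∧
      x ∈ segment ℝ ((B, B ^ 2) : ℝ × ℝ) (D, D ^ 2) := by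
  have hD : 0 < B + D - A - C := by linarith
  have hAC : 0 < C - A := by linarith
  have hBD : 0 < D - B := by linarith
  refine ⟨((B * D - A * C) / (B + D - A - C),
    (A + C) * ((B * D - A * C) / (B + D - A - C)) - A * C), ?_, ?_⟩
  · refine ⟨(C - B) * (D - C) / ((B + D - A - C) * (C - A)),
      (B - A) * (D - A) / ((B + D - A - C) * (C - A)), ?_, ?_, ?_, ?_⟩
    · apply div_nonneg
      · exact mul_nonneg (by linarith) (by linarith)
      · exact (mul_pos hD hAC).le
    · apply div_nonneg
      · exact mul_nonneg (by linarith) (by linarith)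
      · exact (mul_pos hD hAC).le
    · have : (B + D - A - C) * (C - A) ≠ 0 := (mul_pos hD hAC).ne'
      rw [← add_div, div_eq_one_iff_eq this]
      ring
    · have e1 : B + D - A - C ≠ 0 := hD.ne'
      have e2 : C - A ≠ 0 := hAC.ne'
      ext
      · simp only [Prod.fst_add, Prod.smul_fst, smul_eq_mul]
        field_simp
        ring
      · simp only [Prod.snd_add, Prod.smul_snd, smul_eq_mul]
        field_simp
        ring
  · refine ⟨(D - C) * (D - A) / ((B + D - A - C) * (D - B)),
      (C - B) * (B - A) / ((B + D - A - C) * (D - B)), ?_, ?_, ?_, ?_⟩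
    · apply div_nonneg
      · exact mul_nonneg (by linarith) (by linarith)
      · exact (mul_pos hD hBD).le
    · apply div_nonneg
      · exact mul_nonneg (by linarith) (by linarith)
      · exact (mul_pos hD hBD).le
    · have : (B + D - A - C) * (D - B) ≠ 0 := (mul_pos hD hBD).ne'
      rw [← add_div, div_eq_one_iff_eq this]
      ring
    · have e1 : B + D - A - C ≠ 0 := hD.ne'
      have e2 : D - B ≠ 0 := hBD.ne'
      ext
      · simp only [Prod.fst_add, Prod.smul_fst, smul_eq_mul]
        field_simp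
        ring
      · simp only [Prod.snd_add, Prod.smul_snd, smul_eq_mul]
        field_simp
        ring

lemma par_cross (a b c d : ℕ) (hab : a < b) (hbc : b < c) (hcd : c < d) :
    ∃ x, x ∈ segment ℝ (par a) (par c) ∧ x ∈ segment ℝ (par b) (par d) :=
  cross_real a b c d (by exact_mod_cast hab) (by exact_mod_cast hbc) (by exact_mod_cast hcd)

/-- The blue labels of the extremal configuration: `v b` has label `b - n`. -/
def plab (n a : ℕ) : ℕ := if a < n then a else a - n

lemma par_config (n : ℕ) : IsConfig n par (plab n) := by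
  refine ⟨Or.inl (fun a b c h1 h2 _ => par_orient a b c h1 h2), fun a _ b _ h => par_inj a b h,
    ⟨1, 0, (n : ℝ) - 1 / 2, ?_, ?_⟩, ?_, ?_⟩
  · intro a ha
    simp only [par]
    have : (a : ℝ) + 1 ≤ n := by exact_mod_cast ha
    linarith
  · intro b hb _
    simp only [par]
    have : (n : ℝ) ≤ b := by exact_mod_cast hb
    linarith
  · intro a ha
    rw [plab, if_pos ha]
  · refine ⟨?_, ?_, ?_⟩
    · intro b hb
      simp only [Set.mem_setOf_eq] at hb ⊢
      rw [plab, if_neg (by omega)]; omega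
    · intro b hb b' hb' h
      simp only [Set.mem_setOf_eq] at hb hb'
      rw [plab, plab, if_neg (by omega), if_neg (by omega)] at h
      omega
    · intro c hc
      simp only [Set.mem_setOf_eq] at hc
      refine ⟨c + n, ?_, ?_⟩
      · simp only [Set.mem_setOf_eq]; omega
      · rw [plab, if_neg (by omega)]; omega

/-- Two plane edges of the parabola without a common endpoint are nested. -/
lemma nested (a b c d : ℕ) (P Q P' Q' : ℕ)
    (hPQ : (P = a ∧ Q = c) ∨ (P = c ∧ Q = a)) (hPQ' : (P' = b ∧ Q' = d) ∨ (P' = d ∧ Q' = b))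
    (hab : a < b) (hbc : b < c) (hcd : c < d)
    (hplane : ∀ x ∈ segment ℝ (par P) (par Q), x ∈ segment ℝ (par P') (par Q') →
      (x = par P ∨ x = par Q) ∧ (x = par P' ∨ x = par Q')) : False := by
  obtain ⟨x, hx, hx'⟩ := par_cross a b c d hab hbc hcd
  have e1 : segment ℝ (par P) (par Q) = segment ℝ (par a) (par c) := by
    rcases hPQ with ⟨h1, h2⟩ | ⟨h1, h2⟩
    · rw [h1, h2]
    · rw [h1, h2, segment_symm]
  have e2 : segment ℝ (par P') (par Q') = segment ℝ (par b) (par d) := by
    rcases hPQ' with ⟨h1, h2⟩ | ⟨h1, h2⟩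
    · rw [h1, h2]
    · rw [h1, h2, segment_symm]
  rw [← e1] at hx
  rw [← e2] at hx'
  obtain ⟨g1, g2⟩ := hplane x hx hx'
  rcases g1 with g1 | g1 <;> rcases g2 with g2 | g2 <;>
    · have := par_inj _ _ (g1.symm.trans g2)
      omega

lemma upper_matching (n : ℕ) (hn : 1 ≤ n) (ℓ : ℕ) (p q : ℕ → ℕ)
    (h : HarmonicMatching n par (plab n) ℓ p q) : 2 * ℓ ≤ n + 1 := by
  obtain ⟨hG, hd⟩ := h
  obtain ⟨hv, ha, hp, hh⟩ := hG
  have hRB : ∀ k < ℓ, min (p k) (q k) < n ∧ n ≤ max (p k) (q k) ∧ max (p k) (q k) < 2 * n := by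
    intro k hk
    have := hv k hk
    have := ha k hk
    omega
  apply matching_bound n ℓ hn (fun k => min (p k) (q k)) (fun k => max (p k) (q k))
  · intro k hk; exact (hRB k hk).1
  · intro k hk; exact (hRB k hk).2
  · intro k hk l hl he
    by_contra hne
    have := hd k hk l hl hne
    beta_reduce at he
    omega
  · intro k hk l hl he
    by_contra hne
    have := hd k hk l hl hne
    beta_reduce at he
    omega
  · intro k hk l hl hlt
    beta_reduce at hlt ⊢
    by_contra hcon
    have hne : k ≠ l := by rintro rfl; omega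
    have hdd := hd k hk l hl hne
    have r1 := hRB k hk
    have r2 := hRB l hl
    refine nested (min (p k) (q k)) (min (p l) (q l)) (max (p k) (q k)) (max (p l) (q l))
      (p k) (q k) (p l) (q l) (by omega) (by omega) hlt (by omega) (by omega) (hp k hk l hl hne)
  · intro k hk l hl he
    apply hh k hk l hl
    beta_reduce at he
    have r1 := hRB k hk
    have r2 := hRB l hl
    have w : ∀ e < ℓ, plab n (p e) + plab n (q e) + n = min (p e) (q e) + max (p e) (q e) := by
      intro e he'
      have r := hRB e he'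
      unfold plab
      split_ifs <;> omega
    have w1 := w k hk
    have w2 := w l hl
    omega

lemma upper_path (n : ℕ) (hn : 1 ≤ n) (ℓ : ℕ) (u : ℕ → ℕ)
    (h : HarmonicPath n par (plab n) ℓ u) : 3 * ℓ ≤ 2 * n + 4 := by
  obtain ⟨hv0, hsimple, hG⟩ := h
  obtain ⟨hv, ha, hp, hh⟩ := hG
  beta_reduce at hv ha hp hh
  have hcol1 : ∀ k < ℓ, (u k < n ∧ n ≤ u (k + 1)) ∨ (n ≤ u k ∧ u (k + 1) < n) := by
    intro k hk
    have := ha k hk
    omega
  have hcol : ∀ k, k + 2 ≤ ℓ → (u k < n ∧ u (k + 2) < n) ∨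
      (n ≤ u k ∧ u k < 2 * n ∧ n ≤ u (k + 2) ∧ u (k + 2) < 2 * n) := by
    intro k hk
    have h1 := hcol1 k (by omega)
    have h2 := hcol1 (k + 1) (by omega)
    have h3 := hv0 k (by omega)
    have h4 := hv0 (k + 2) (by omega)
    rw [show k + 1 + 1 = k + 2 by ring] at h2
    omega
  apply path_bound n ℓ u hn hv0
  · intro h2 he
    have := hsimple 0 (by omega) 2 h2 he
    omega
  · exact hcol
  · intro k hk
    have c0 := hcol k (by omega)
    have c1 := hcol (k + 1) (by omega)
    have c2 := hcol1 k (by omega)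
    have c3 := hcol1 (k + 2) (by omega)
    rw [show k + 1 + 2 = k + 3 by ring] at c1
    rw [show k + 2 + 1 = k + 3 by ring] at c3
    have v3 := hv0 (k + 3) (by omega)
    have v1 := hv0 (k + 1) (by omega)
    have d02 : u k ≠ u (k + 2) := fun h => by
      have := hsimple k (by omega) (k + 2) (by omega) h; omega
    have d13 : u (k + 1) ≠ u (k + 3) := fun h => by
      have := hsimple (k + 1) (by omega) (k + 3) (by omega) h; omega
    have pl := hp k (by omega) (k + 2) (by omega) (by omega)
    have pl' := hp (k + 2) (by omega) k (by omega) (by omega)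
    rw [show k + 2 + 1 = k + 3 by ring] at pl pl'
    by_contra hcon
    rcases c2 with c2 | c2
    · -- `u k` red
      rcases lt_or_gt_of_ne d02 with h | h
      · exact nested (u k) (u (k + 2)) (u (k + 1)) (u (k + 3)) _ _ _ _ (Or.inl ⟨rfl, rfl⟩)
          (Or.inl ⟨rfl, rfl⟩) h (by omega) (by omega) pl
      · exact nested (u (k + 2)) (u k) (u (k + 3)) (u (k + 1)) _ _ _ _ (Or.inl ⟨rfl, rfl⟩)
          (Or.inl ⟨rfl, rfl⟩) h (by omega) (by omega) pl'
    · rcases lt_or_gt_of_ne d02 with h | h
      · exact nested (u (k + 1)) (u (k + 3)) (u k) (u (k + 2)) _ _ _ _ (Or.inr ⟨rfl, rfl⟩)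
          (Or.inr ⟨rfl, rfl⟩) (by omega) (by omega) (by omega) pl
      · exact nested (u (k + 3)) (u (k + 1)) (u (k + 2)) (u k) _ _ _ _ (Or.inr ⟨rfl, rfl⟩)
          (Or.inr ⟨rfl, rfl⟩) (by omega) (by omega) (by omega) pl'
  · intro k hk l hl he
    apply hh k hk l hl
    have w : ∀ e < ℓ, plab n (u e) + plab n (u (e + 1)) + n = u e + u (e + 1) := by
      intro e he'
      have r := hcol1 e he'
      unfold plab
      split_ifs <;> omega
    have w1 := w k hk
    have w2 := w l hl
    omega

/-- **Main result.** For every `n ≥ 1` some configuration (with red labels `0, …, n-1`) has no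
harmonic alternating path with more than `(2n+4)/3` edges and no harmonic alternating matching with
more than `(n+1)/2` edges. -/
theorem result (n : ℕ) (hn : 1 ≤ n) :
    ∃ (v : ℕ → ℝ × ℝ) (lab : ℕ → ℕ), IsConfig n v lab ∧
      (∀ ℓ u, HarmonicPath n v lab ℓ u → 3 * ℓ ≤ 2 * n + 4) ∧
      (∀ ℓ p q, HarmonicMatching n v lab ℓ p q → 2 * ℓ ≤ n + 1) :=
  ⟨par, plab n, par_config n, fun ℓ u h => upper_path n hn ℓ u h,
    fun ℓ p q h => upper_matching n hn ℓ p q h⟩

end Pool.Agent.Results.MP_70146a_co.UpperAllN
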